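import Mathlib

namespace Pool.Agent.Results.MP_ef18bd_co.RadiusTwo

open Finset

variable {V : Type} [Fintype V] [DecidableEq V]

/-- the sum of `f` over the closed neighbourhood of `v` -/
def nsum (G : SimpleGraph V) [DecidableRel G.Adj] (f : V → ℤ) (v : V) : ℤ :=
  ∑ u ∈ univ.filter (fun u => u = v ∨ G.Adj v u), f u

/-- minus dominating function -/
def MinusDom (G : SimpleGraph V) [DecidableRel G.Adj] (f : V → ℤ) : Prop :=
  (∀ v, f v = -1 ∨ f v = 0 ∨ f v = 1) ∧ ∀ v, 1 ≤ nsum G f v

/-- signed dominating function -/
def SignedDom (G : SimpleGraph V) [DecidableRel G.Adj] (f : V → ℤ) : Prop :=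
  (∀ v, f v = -1 ∨ f v = 1) ∧ ∀ v, 1 ≤ nsum G f v

/-- minimal minus dominating function -/
def MinimalMinus (G : SimpleGraph V) [DecidableRel G.Adj] (f : V → ℤ) : Prop :=
  MinusDom G f ∧ ∀ g, MinusDom G g → (∀ v, g v ≤ f v) → g = f

/-- minimal signed dominating function -/
def MinimalSigned (G : SimpleGraph V) [DecidableRel G.Adj] (f : V → ℤ) : Prop :=
  SignedDom G f ∧ ∀ g, SignedDom G g → (∀ v, g v ≤ f v) → g = f

/-- every vertex has exactly three neighbours -/
def Cubic (G : SimpleGraph V) [DecidableRel G.Adj] : Prop :=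
  ∀ v, (univ.filter (fun u => G.Adj v u)).card = 3

theorem card_nbhd {G : SimpleGraph V} [DecidableRel G.Adj] (h : Cubic G) (v : V) :
    (univ.filter (fun u => u = v ∨ G.Adj v u)).card = 4 := by
  have e : univ.filter (fun u => u = v ∨ G.Adj v u)
      = insert v (univ.filter (fun u => G.Adj v u)) := by
    ext u; simp
  rw [e, Finset.card_insert_of_notMem (by simp), h v]

/-- weight bound for minimal minus dominating functions -/
theorem minus_bound {G : SimpleGraph V} [DecidableRel G.Adj] (h : Cubic G) (c : V) {f : V → ℤ}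
    (hf : MinimalMinus G f) : ∑ v, f v + 3 ≤ Fintype.card V := by
  have hle : ∀ v, f v ≤ 1 := fun v => by rcases hf.1.1 v with h | h | h <;> omega
  obtain ⟨v, hv⟩ : ∃ v, 0 ≤ f v := by
    by_contra hcon
    push Not at hcon
    have h1 := hf.1.2 c
    have h2 : nsum G f c ≤ 0 := Finset.sum_nonpos fun u _ => (hcon u).le
    omega
  have hno : ¬ MinusDom G (Function.update f v (f v - 1)) := by
    intro hd
    have h1 := hf.2 _ hd (fun u => by
      by_cases hu : u = v
      · subst hu; rw [Function.update_self]; omega
      · rw [Function.update_of_ne hu])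
    have h2 := congrFun h1 v
    rw [Function.update_self] at h2
    omega
  have hval : ∀ u, Function.update f v (f v - 1) u = -1 ∨ Function.update f v (f v - 1) u = 0 ∨
      Function.update f v (f v - 1) u = 1 := by
    intro u
    by_cases hu : u = v
    · subst hu
      rw [Function.update_self]
      rcases hf.1.1 u with h | h | h <;> omega
    · rw [Function.update_of_ne hu]
      exact hf.1.1 u
  obtain ⟨u, hu⟩ : ∃ u, ¬ 1 ≤ nsum G (Function.update f v (f v - 1)) u := by
    by_contra hcon
    push Not at hcon
    exact hno ⟨hval, hcon⟩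
  have hu2 : nsum G f u ≤ nsum G (Function.update f v (f v - 1)) u + 1 := by
    unfold nsum
    by_cases hmem : v ∈ univ.filter (fun w => w = u ∨ G.Adj u w)
    · rw [Finset.sum_update_of_mem hmem, ← Finset.add_sum_erase _ _ hmem, Finset.erase_eq]
      omega
    · rw [Finset.sum_update_of_notMem hmem]
      omega
  have h3 : ∑ w ∈ univ.filter (fun w => w = u ∨ G.Adj u w), (1 - f w) ≤ ∑ w, (1 - f w) :=
    Finset.sum_le_sum_of_subset_of_nonneg (Finset.subset_univ _) fun w _ _ => by
      have := hle w; omega
  rw [Finset.sum_sub_distrib, Finset.sum_sub_distrib, Finset.sum_const, Finset.sum_const,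
    card_nbhd h, Finset.card_univ] at h3
  unfold nsum at hu hu2
  simp only [nsmul_eq_mul, mul_one] at h3
  push_cast at h3
  omega

/-- the function with a single `-1` -/
def one (c : V) : V → ℤ := fun v => if v = c then -1 else 1

theorem nsum_one {G : SimpleGraph V} [DecidableRel G.Adj] (h : Cubic G) (c v : V) :
    2 ≤ nsum G (one c) v := by
  unfold nsum one
  rw [Finset.sum_ite]
  have h1 := card_nbhd h v
  rw [← Finset.card_filter_add_card_filter_not (fun u => u = c)] at h1
  have h2 : ((univ.filter (fun u => u = v ∨ G.Adj v u)).filter (fun u => u = c)).card ≤ 1 := by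
    rw [Finset.card_le_one]
    intro a ha b hb
    rw [Finset.mem_filter] at ha hb
    rw [ha.2, hb.2]
  rw [Finset.sum_const, Finset.sum_const]
  simp only [nsmul_eq_mul, mul_one, mul_neg]
  omega

theorem minimal_one {G : SimpleGraph V} [DecidableRel G.Adj] (h : Cubic G) (c : V)
    (hc : ∀ v, v ≠ c → ∃ u, (c = u ∨ G.Adj u c) ∧ (v = u ∨ G.Adj u v)) :
    MinimalSigned G (one c) := by
  refine ⟨⟨?_, fun v => ?_⟩, ?_⟩
  · intro v
    unfold one
    split_ifs
    · left; rfl
    · right; rfl
  · have := nsum_one h c v; omega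
  · intro g hg hle
    funext v
    by_contra hne
    have hgc : g c = -1 := by
      have h1 := hle c
      unfold one at h1
      rw [if_pos rfl] at h1
      rcases hg.1 c with h2 | h2 <;> omega
    have hvc : v ≠ c := by
      rintro rfl
      apply hne
      rw [hgc]; unfold one; rw [if_pos rfl]
    have hgv : g v = -1 := by
      rcases hg.1 v with h2 | h2
      · exact h2
      · exfalso; apply hne; rw [h2]; unfold one; rw [if_neg hvc]
    obtain ⟨u, hu1, hu2⟩ := hc v hvc
    have h1 := hg.2 u
    unfold nsum at h1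
    have hcm : c ∈ univ.filter (fun w => w = u ∨ G.Adj u w) := by simpa using hu1
    have hvm : v ∈ (univ.filter (fun w => w = u ∨ G.Adj u w)).erase c :=
      Finset.mem_erase.2 ⟨hvc, by simpa using hu2⟩
    rw [← Finset.add_sum_erase _ _ hcm, ← Finset.add_sum_erase _ _ hvm, hgc, hgv] at h1
    have h2 : ∑ x ∈ ((univ.filter (fun w => w = u ∨ G.Adj u w)).erase c).erase v, g x ≤
        ∑ x ∈ ((univ.filter (fun w => w = u ∨ G.Adj u w)).erase c).erase v, 1 :=
      Finset.sum_le_sum fun x _ => by rcases hg.1 x with h | h <;> omega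
    rw [Finset.sum_const, Finset.card_erase_of_mem hvm, Finset.card_erase_of_mem hcm,
      card_nbhd h] at h2
    norm_num at h2
    omega

theorem weight_one (c : V) : ∑ v, one c v + 2 = Fintype.card V := by
  have h1 : ∀ v, one c v = 1 - (if v = c then 2 else 0) := by
    intro v; unfold one; split_ifs <;> norm_num
  rw [Finset.sum_congr rfl (fun v _ => h1 v), Finset.sum_sub_distrib, Finset.sum_ite_eq']
  simp

/-- In a cubic graph in which some vertex has distance at most two from every other vertex, some
minimal signed dominating function has larger weight than every minimal minus dominating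
function. -/
theorem radius_two {V : Type} [Fintype V] [DecidableEq V] (G : SimpleGraph V)
    [DecidableRel G.Adj] (h : Cubic G)
    (hc : ∃ c, ∀ v, v ≠ c → ∃ u, (c = u ∨ G.Adj u c) ∧ (v = u ∨ G.Adj u v)) :
    ∃ g, MinimalSigned G g ∧ ∀ f, MinimalMinus G f → ∑ v, f v < ∑ v, g v := by
  obtain ⟨c, hc⟩ := hc
  refine ⟨one c, minimal_one h c hc, fun f hf => ?_⟩
  have h1 := minus_bound h c hf
  have h2 := weight_one c
  omega

/-- First part: in every cubic graph in which some vertex has distance at most two from every
other vertex, the upper minus domination number is smaller than the upper signed domination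
number. Second part: direction (ii) fails, i.e. it is not true that in every cubic graph every
minimal signed dominating function has at most the weight of some minimal minus dominating
function. -/
theorem result :
    (∀ (V : Type) (_ : Fintype V) (_ : DecidableEq V) (G : SimpleGraph V)
      (_ : DecidableRel G.Adj), Cubic G →
      (∃ c, ∀ v, v ≠ c → ∃ u, (c = u ∨ G.Adj u c) ∧ (v = u ∨ G.Adj u v)) →
      ∃ g, MinimalSigned G g ∧ ∀ f, MinimalMinus G f → ∑ v, f v < ∑ v, g v) ∧
    ¬ ∀ (V : Type) (_ : Fintype V) (_ : DecidableEq V) (G : SimpleGraph V)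
      (_ : DecidableRel G.Adj), Cubic G → ∀ g, MinimalSigned G g →
      ∃ f, MinimalMinus G f ∧ ∑ v, g v ≤ ∑ v, f v := by
  refine ⟨fun V _ _ G _ h hc => radius_two G h hc, fun hall => ?_⟩
  have hK : Cubic (⊤ : SimpleGraph (Fin 4)) := by
    unfold Cubic; decide
  obtain ⟨g, hg, hlt⟩ := radius_two (⊤ : SimpleGraph (Fin 4)) hK
    ⟨0, fun v hv => ⟨v, Or.inr (by simpa using hv), Or.inl rfl⟩⟩
  obtain ⟨f, hf, hle⟩ := hall (Fin 4) inferInstance inferInstance ⊤ inferInstance hK g hg
  have := hlt f hf
  omega

end Pool.Agent.Results.MP_ef18bd_co.RadiusTwo
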